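import Pool.Agent.Helper76.FT.GoalsC

/-! # Interface for FT-LEAF: the holomorphic functions of `(s, q, v, w)` -/

set_option autoImplicit false

namespace Pool.Agent.Helper10.FT

open Complex Set Filter Topology
open Pool.Agent.Helper76.FT

/-- four complex variables `(s, q, v, w)` -/
abbrev C4 : Type := ℂ × ℂ × ℂ × ℂ

/-- the holomorphic functions `A = p(w) - p(v)`, `J = (En(w) - En(v)) / A`,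
`Gm` with `dGm/dw = (w - v) A_w / A`, `RR = (J - v) / A` -/
structure LF (S : Sys) (Om : Set C4) (A J Gm RR : C4 → ℂ) (k1 : ℝ) : Prop where
  opn : IsOpen Om
  hA : DifferentiableOn ℂ A Om
  hJ : DifferentiableOn ℂ J Om
  hG : DifferentiableOn ℂ Gm Om
  hR : DifferentiableOn ℂ RR Om
  realA : ∀ s q v w : ℝ, ((s : ℂ), (q : ℂ), (v : ℂ), (w : ℂ)) ∈ Om →
    (A ((s : ℂ), (q : ℂ), (v : ℂ), (w : ℂ))).im = 0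
  realJ : ∀ s q v w : ℝ, ((s : ℂ), (q : ℂ), (v : ℂ), (w : ℂ)) ∈ Om →
    (J ((s : ℂ), (q : ℂ), (v : ℂ), (w : ℂ))).im = 0
  realG : ∀ s q v w : ℝ, ((s : ℂ), (q : ℂ), (v : ℂ), (w : ℂ)) ∈ Om →
    (Gm ((s : ℂ), (q : ℂ), (v : ℂ), (w : ℂ))).im = 0
  realR : ∀ s q v w : ℝ, ((s : ℂ), (q : ℂ), (v : ℂ), (w : ℂ)) ∈ Om →
    (RR ((s : ℂ), (q : ℂ), (v : ℂ), (w : ℂ))).im = 0
  per : ∀ s q v w : ℂ, (s, q, v, w) ∈ Om → (s, q + 1, v, w) ∈ Om ∧ (s, q - 1, v, w) ∈ Om ∧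
    A (s, q + 1, v, w) = A (s, q, v, w) ∧ J (s, q + 1, v, w) = J (s, q, v, w) ∧
    Gm (s, q + 1, v, w) = Gm (s, q, v, w) ∧ RR (s, q + 1, v, w) = RR (s, q, v, w)
  mem : ∀ s ∈ Icc (0:ℝ) 1, ∀ (q v : ℝ) (w : ℂ), (q, v) ∈ S.Reg s → (q, w.re) ∈ S.Reg s →
    |w.im| < S.r → ((s : ℂ), (q : ℂ), (v : ℂ), w) ∈ Om
  eqA : ∀ s ∈ Icc (0:ℝ) 1, ∀ (q v : ℝ) (w : ℂ), (q, v) ∈ S.Reg s → (q, w.re) ∈ S.Reg s →
    |w.im| < S.r → A ((s : ℂ), (q : ℂ), (v : ℂ), w) = S.p s q w - S.p s q v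
  eqJ : ∀ s ∈ Icc (0:ℝ) 1, ∀ (q v : ℝ) (w : ℂ), (q, v) ∈ S.Reg s → (q, w.re) ∈ S.Reg s →
    |w.im| < S.r → J ((s : ℂ), (q : ℂ), (v : ℂ), w) * A ((s : ℂ), (q : ℂ), (v : ℂ), w) =
      S.En s q w - S.En s q v
  eqR : ∀ s q v w : ℂ, (s, q, v, w) ∈ Om →
    J (s, q, v, w) - v = RR (s, q, v, w) * A (s, q, v, w)
  key : ∀ s q v w : ℂ, (s, q, v, w) ∈ Om → w ≠ v →
    fderiv ℂ J (s, q, v, w) (0, 0, 0, 1) + RR (s, q, v, w) * fderiv ℂ A (s, q, v, w) (0, 0, 0, 1) =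
      fderiv ℂ Gm (s, q, v, w) (0, 0, 0, 1)
  pos : ∀ s ∈ Icc (0:ℝ) 1, ∀ q v w : ℝ, (q, v) ∈ S.Reg s → (q, w) ∈ S.Reg s →
    k1 ≤ (fderiv ℂ Gm ((s : ℂ), (q : ℂ), (v : ℂ), (w : ℂ)) (0, 0, 0, 1)).re

/-- existence of the functions -/
def GLF : Prop := ∀ S : Sys, S.Ok → ∃ (Om : Set C4) (A J Gm RR : C4 → ℂ) (k1 : ℝ), 0 < k1 ∧
  LF S Om A J Gm RR k1

/-- the velocity of a periodic analytic leaf is `C¹` in the position -/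
def GLeafV : Prop := ∀ S : Sys, S.Ok → ∀ Y ∈ Icc S.a S.b, ∀ (N : ℕ) (m : ℤ),
    (∀ x : ℝ, (S.g Y)^[N + 1] x = x + m) → AnalyticOnNhd ℝ (fun x : ℝ => S.V Y x 0) univ →
    ∃ vq : ℝ → ℝ → ℝ, ContinuousOn (fun z : ℝ × ℝ => vq z.1 z.2) (univ ×ˢ Icc (0:ℝ) 1) ∧
      ∀ q : ℝ, ∀ s ∈ Icc (0:ℝ) 1, HasDerivAt (fun q' => S.V Y q' s) (vq q s) q

end Pool.Agent.Helper10.FT
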