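import Pool.Agent.Helper10.FT.LeafC
import Pool.Agent.Helper76.FT.LeafFin
import Pool.Agent.Helper37.FT.LeafV2

/-! # FT-LEAF -/

set_option autoImplicit false

namespace Pool.Agent.Helper10.FT

open Pool.Agent.Helper76.FT

theorem ft_leaf : GReg → GMom → GTorP → GLeaf := fun hR hM hT =>
  ft_leaf_of hR hM hT (Pool.Agent.Helper76.FT.Leaf.glf hR hM) (Pool.Agent.Helper37.FT.ft_leafV hR)

end Pool.Agent.Helper10.FT
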