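import Pool.Agent.Helper10.FT.LeafDef
import Pool.Agent.Helper30.FT.Mom
import Pool.Agent.Helper68.FT.TorP

/-! # FT-LEAF, general lemmas -/

set_option autoImplicit false

namespace Pool.Agent.Helper10.FT

open Complex Set Filter Topology Metric
open Pool.Agent.Helper76.FT
open Pool.Agent.Helper30.FT (norm_fderiv_le_of_bound norm_sub_le_of_bound continuousAt_fderiv)

section general

variable {E F : Type*} [NormedAddCommGroup E] [NormedSpace ℂ E] [NormedAddCommGroup F]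
  [NormedSpace ℂ F]

/-- Lipschitz bounds for a bounded holomorphic function and its derivative -/
theorem lipB {f : E → F} {x : E} {ρ M : ℝ} (hρ : 0 < ρ)
    (hf : DifferentiableOn ℂ f (ball x (4 * ρ))) (hM : ∀ y ∈ ball x (4 * ρ), ‖f y‖ ≤ M) :
    ∀ y ∈ ball x ρ, ‖f y - f x‖ ≤ 2 * M / ρ * ‖y - x‖ ∧ ‖fderiv ℂ f y‖ ≤ 2 * M / ρ ∧
      ‖fderiv ℂ f y - fderiv ℂ f x‖ ≤ 2 * M / ρ ^ 2 * ‖y - x‖ := by
  have hlip : ∀ y ∈ ball x (2 * ρ), ∀ z ∈ ball x (2 * ρ), ‖f y - f z‖ ≤ 2 * M / (2 * ρ) * ‖y - z‖ :=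
    fun y hy z hz => norm_sub_le_of_bound (by positivity)
      (hf.mono (ball_subset_ball (by linarith))) (fun u hu => hM u
        (ball_subset_ball (by linarith) hu)) hy hz
  intro y hy
  have hx0 : x ∈ ball x ρ := mem_ball_self hρ
  have hsub : ball y ρ ⊆ ball x (4 * ρ) := fun v hv => by
    rw [mem_ball] at *
    calc dist v x ≤ dist v y + dist y x := dist_triangle _ _ _
      _ < 4 * ρ := by linarith
  refine ⟨?_, norm_fderiv_le_of_bound hρ (hf.mono hsub) (fun u hu => hM u (hsub hu)), ?_⟩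
  · exact norm_sub_le_of_bound hρ (hf.mono (ball_subset_ball (by linarith)))
      (fun u hu => hM u (ball_subset_ball (by linarith) hu)) hy hx0
  · have hin : ∀ u ∈ ball (0 : E) ρ, y + u ∈ ball x (2 * ρ) ∧ x + u ∈ ball x (2 * ρ) := by
      intro u hu
      rw [mem_ball_zero_iff] at hu
      rw [mem_ball, dist_eq_norm] at hy
      constructor
      · rw [mem_ball, dist_eq_norm]
        calc ‖y + u - x‖ = ‖(y - x) + u‖ := by congr 1; abel
          _ ≤ ‖y - x‖ + ‖u‖ := norm_add_le _ _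
          _ < 2 * ρ := by linarith
      · rw [mem_ball, dist_eq_norm, add_sub_cancel_left]
        linarith
    have hd1 : ∀ u ∈ ball (0 : E) ρ, DifferentiableAt ℂ (fun u => f (y + u)) u := by
      intro u hu
      have h1 : DifferentiableAt ℂ f (y + u) :=
        hf.differentiableAt (isOpen_ball.mem_nhds
          (ball_subset_ball (by linarith) (hin u hu).1))
      exact h1.comp u (by fun_prop)
    have hd2 : ∀ u ∈ ball (0 : E) ρ, DifferentiableAt ℂ (fun u => f (x + u)) u := by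
      intro u hu
      have h1 : DifferentiableAt ℂ f (x + u) :=
        hf.differentiableAt (isOpen_ball.mem_nhds
          (ball_subset_ball (by linarith) (hin u hu).2))
      exact h1.comp u (by fun_prop)
    have h := norm_fderiv_le_of_bound (f := fun u => f (y + u) - f (x + u)) (x := 0) hρ
      (M := 2 * M / (2 * ρ) * ‖y - x‖)
      (fun u hu => ((hd1 u hu).sub (hd2 u hu)).differentiableWithinAt) (fun u hu => by
        refine (hlip _ (hin u hu).1 _ (hin u hu).2).trans_eq ?_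
        congr 2
        abel)
    have h0 := mem_ball_self (x := (0 : E)) hρ
    rw [fderiv_fun_sub (hd1 0 h0) (hd2 0 h0), fderiv_comp_add_left, fderiv_comp_add_left,
      add_zero, add_zero] at h
    refine h.trans_eq ?_
    field_simp

/-- uniform bounds near a set -/
structure UB (f : E → F) (Om K : Set E) (ρ C : ℝ) : Prop where
  hρ : 0 < ρ
  hC : 0 < C
  mem : ∀ x ∈ K, ∀ y ∈ ball x ρ, y ∈ Om
  bd : ∀ x ∈ K, ∀ y ∈ ball x ρ, ‖f y‖ ≤ C
  lip : ∀ x ∈ K, ∀ y ∈ ball x ρ, ‖f y - f x‖ ≤ C * ‖y - x‖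
  bd' : ∀ x ∈ K, ∀ y ∈ ball x ρ, ‖fderiv ℂ f y‖ ≤ C
  lip' : ∀ x ∈ K, ∀ y ∈ ball x ρ, ‖fderiv ℂ f y - fderiv ℂ f x‖ ≤ C * ‖y - x‖

theorem UB.mono {f : E → F} {Om K : Set E} {ρ ρ' C C' : ℝ} (h : UB f Om K ρ C) (h0 : 0 < ρ')
    (h1 : ρ' ≤ ρ) (h2 : C ≤ C') : UB f Om K ρ' C' := by
  have hb : ∀ x : E, ball x ρ' ⊆ ball x ρ := fun x => ball_subset_ball h1
  refine ⟨h0, h.hC.trans_le h2, fun x hx y hy => h.mem x hx y (hb x hy),
    fun x hx y hy => (h.bd x hx y (hb x hy)).trans h2,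
    fun x hx y hy => (h.lip x hx y (hb x hy)).trans (by gcongr),
    fun x hx y hy => (h.bd' x hx y (hb x hy)).trans h2,
    fun x hx y hy => (h.lip' x hx y (hb x hy)).trans (by gcongr)⟩

theorem exists_UB {f : E → F} {Om K : Set E} (hf : DifferentiableOn ℂ f Om) {ρ M : ℝ} (hρ : 0 < ρ)
    (h1 : ∀ x ∈ K, ball x (4 * ρ) ⊆ Om) (h2 : ∀ x ∈ K, ∀ y ∈ ball x (4 * ρ), ‖f y‖ ≤ M) :
    ∃ C, UB f Om K ρ C := by
  refine ⟨|M| + 1 + 2 * |M| / ρ + 2 * |M| / ρ ^ 2, hρ, by positivity, fun x hx y hy =>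
    h1 x hx (ball_subset_ball (by linarith) hy), fun x hx y hy => ?_, fun x hx y hy => ?_,
    fun x hx y hy => ?_, fun x hx y hy => ?_⟩
  all_goals
    obtain ⟨ha, hb, hc⟩ := lipB hρ (hf.mono (h1 x hx)) (h2 x hx) y hy
    have hM : M ≤ |M| := le_abs_self M
    have e0 : 0 ≤ |M| := abs_nonneg M
    have e1 : 2 * M / ρ ≤ 2 * |M| / ρ := by gcongr
    have e2 : 2 * M / ρ ^ 2 ≤ 2 * |M| / ρ ^ 2 := by gcongr
    have e3 : 0 ≤ 2 * |M| / ρ := by positivity
    have e4 : 0 ≤ 2 * |M| / ρ ^ 2 := by positivity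
  · have := h2 x hx y (ball_subset_ball (by linarith) hy)
    linarith
  · refine ha.trans ?_
    gcongr
    linarith
  · linarith
  · refine hc.trans ?_
    gcongr
    linarith

/-- compact sets have bounded neighbourhoods -/
theorem exists_nbd [ProperSpace E] {f : E → F} {Om K : Set E} (hOm : IsOpen Om)
    (hf : ContinuousOn f Om) (hK : IsCompact K) (hKO : K ⊆ Om) :
    ∃ ρ M : ℝ, 0 < ρ ∧ ∀ x ∈ K, ball x (4 * ρ) ⊆ Om ∧ ∀ y ∈ ball x (4 * ρ), ‖f y‖ ≤ M := by
  obtain ⟨δ, hδ, hsub⟩ := hK.exists_cthickening_subset_open hOm hKO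
  have hc : IsCompact (cthickening δ K) := hK.cthickening
  obtain ⟨M, hM⟩ := hc.exists_bound_of_continuousOn (hf.mono hsub)
  refine ⟨δ / 4, M, by positivity, fun x hx => ?_⟩
  have hb : ball x (4 * (δ / 4)) ⊆ cthickening δ K := by
    have : 4 * (δ / 4) = δ := by ring
    rw [this]
    exact (ball_subset_thickening hx δ).trans (thickening_subset_cthickening δ K)
  exact ⟨hb.trans hsub, fun y hy => hM y (hb hy)⟩

end general

theorem C4_decomp (L : C4 →L[ℂ] ℂ) (a b c d : ℂ) :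
    L (a, b, c, d) = L (a, b, c, 0) + d * L (0, 0, 0, 1) := by
  have : ((a, b, c, d) : C4) = (a, b, c, 0) + d • ((0, 0, 0, 1) : C4) := by
    simp
  rw [this, map_add, map_smul, smul_eq_mul]

theorem C3_decomp (L : (ℂ × ℂ × ℂ) →L[ℂ] ℂ) (a b c : ℂ) :
    L (a, b, c) = a * L (1, 0, 0) + b * L (0, 1, 0) + c * L (0, 0, 1) := by
  have : ((a, b, c) : ℂ × ℂ × ℂ) = a • ((1, 0, 0) : ℂ × ℂ × ℂ) + b • ((0, 1, 0) : ℂ × ℂ × ℂ)
      + c • ((0, 0, 1) : ℂ × ℂ × ℂ) := by
    simp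
  rw [this, map_add, map_add, map_smul, map_smul, map_smul, smul_eq_mul, smul_eq_mul, smul_eq_mul]

/-- a real point of `C4` -/
def rp (s q v w : ℝ) : C4 := ((s : ℂ), (q : ℂ), (v : ℂ), (w : ℂ))

/-- derivative of a real function in a real direction -/
theorem real_fderiv {f : C4 → ℂ} {Om : Set C4} (hO : IsOpen Om) (hf : DifferentiableOn ℂ f Om)
    (hr : ∀ s q v w : ℝ, rp s q v w ∈ Om → (f (rp s q v w)).im = 0)
    {s q v w : ℝ} (h : rp s q v w ∈ Om) (a b c d : ℝ) :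
    (fderiv ℂ f (rp s q v w) (rp a b c d)).im = 0 := by
  have h1 : HasFDerivAt f (fderiv ℂ f (rp s q v w)) (rp s q v w) :=
    (hf.differentiableAt (hO.mem_nhds h)).hasFDerivAt
  have hcu : HasDerivAt (fun t : ℝ => rp (s + t * a) (q + t * b) (v + t * c) (w + t * d))
      (rp a b c d) 0 := by
    have key : ∀ x y : ℝ, HasDerivAt (fun t : ℝ => ((x + t * y : ℝ) : ℂ)) (y : ℂ) 0 := by
      intro x y
      have h2 : HasDerivAt (fun t : ℝ => x + t * y) y 0 := by
        simpa using ((hasDerivAt_id (0:ℝ)).mul_const y).const_add x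
      exact h2.ofReal_comp
    exact (key s a).prodMk ((key q b).prodMk ((key v c).prodMk (key w d)))
  have h2 : HasDerivAt (fun t : ℝ => f (rp (s + t * a) (q + t * b) (v + t * c) (w + t * d)))
      (fderiv ℂ f (rp s q v w) (rp a b c d)) 0 := by
    have h3 : HasFDerivAt f ((fderiv ℂ f (rp s q v w)).restrictScalars ℝ)
        (rp (s + 0 * a) (q + 0 * b) (v + 0 * c) (w + 0 * d)) := by
      simp only [zero_mul, add_zero]
      exact h1.restrictScalars ℝ
    exact h3.comp_hasDerivAt (0:ℝ) hcu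
  have h3 : HasDerivAt (fun t : ℝ => (f (rp (s + t * a) (q + t * b) (v + t * c) (w + t * d))).im)
      (fderiv ℂ f (rp s q v w) (rp a b c d)).im 0 := by
    have := (Complex.imCLM.hasFDerivAt).comp_hasDerivAt (0:ℝ) h2
    exact this
  have h4 : HasDerivAt (fun t : ℝ => (f (rp (s + t * a) (q + t * b) (v + t * c) (w + t * d))).im)
      0 0 := by
    refine (hasDerivAt_const (0:ℝ) (0:ℝ)).congr_of_eventuallyEq ?_
    have hc : ContinuousAt (fun t : ℝ => rp (s + t * a) (q + t * b) (v + t * c) (w + t * d)) 0 :=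
      hcu.continuousAt
    have h5 : ∀ᶠ t : ℝ in 𝓝 0, rp (s + t * a) (q + t * b) (v + t * c) (w + t * d) ∈ Om := by
      refine hc.eventually (hO.mem_nhds ?_)
      simpa using h
    filter_upwards [h5] with t ht
    exact hr _ _ _ _ ht
  exact h3.unique h4

end Pool.Agent.Helper10.FT
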