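import Pool.Agent.Helper10.FT.LeafA

/-! # FT-LEAF, bounds -/

set_option autoImplicit false

namespace Pool.Agent.Helper10.FT

open Complex Set Filter Topology Metric
open Pool.Agent.Helper76.FT

/-- real points over the region -/
def KR (S : Sys) : Set C4 :=
  {z | ∃ s ∈ Icc (0:ℝ) 1, ∃ q v w : ℝ, (q, v) ∈ S.Reg s ∧ (q, w) ∈ S.Reg s ∧ z = rp s q v w}

theorem perZ {f : C4 → ℂ} {Om : Set C4}
    (hper : ∀ s q v w : ℂ, (s, q, v, w) ∈ Om → (s, q + 1, v, w) ∈ Om ∧ (s, q - 1, v, w) ∈ Om ∧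
      f (s, q + 1, v, w) = f (s, q, v, w)) (n : ℤ) :
    ∀ s q v w : ℂ, (s, q, v, w) ∈ Om → (s, q + n, v, w) ∈ Om ∧
      f (s, q + n, v, w) = f (s, q, v, w) := by
  induction n using Int.induction_on with
  | zero => intro s q v w h; simpa using h
  | succ n ih =>
    intro s q v w h
    obtain ⟨h1, h2⟩ := ih s q v w h
    obtain ⟨h3, -, h4⟩ := hper _ _ _ _ h1
    have e : q + ((n + 1 : ℤ) : ℂ) = q + ((n : ℤ) : ℂ) + 1 := by push_cast; ring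
    rw [e]
    exact ⟨h3, h4.trans h2⟩
  | pred n ih =>
    intro s q v w h
    obtain ⟨h1, h2⟩ := ih s q v w h
    obtain ⟨-, h3, -⟩ := hper _ _ _ _ h1
    obtain ⟨-, -, h4⟩ := hper _ _ _ _ h3
    have e : q + ((-n - 1 : ℤ) : ℂ) = q + ((-n : ℤ) : ℂ) - 1 := by push_cast; ring
    rw [e]
    refine ⟨h3, ?_⟩
    rw [sub_add_cancel] at h4
    rw [← h4, h2]

theorem Reg_shift {S : Sys} (hS : S.Ok) {s : ℝ} (hs : s ∈ Icc (0:ℝ) 1) (n : ℤ) {q v : ℝ}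
    (h : (q, v) ∈ S.Reg s) : (q + n, v) ∈ S.Reg s := by
  have ha : S.a ∈ Icc S.a S.b := ⟨le_rfl, (hS.ha.trans hS.hb).le⟩
  have hb : S.b ∈ Icc S.a S.b := ⟨(hS.ha.trans hS.hb).le, le_rfl⟩
  have key : ∀ Y ∈ Icc S.a S.b, S.V Y (q + n) s = S.V Y q s := by
    intro Y hY
    have hp : Function.Periodic (fun q => S.V Y q s) 1 := fun q => hS.Vper Y hY q s hs
    have := hp.int_mul n q
    simpa using this
  simp only [Sys.Reg, mem_setOf_eq] at h ⊢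
  rw [key _ ha, key _ hb]
  exact h

theorem KR_nbd {S : Sys} (hS : S.Ok) (hR : GReg) {f : C4 → ℂ} {Om : Set C4} (hOm : IsOpen Om)
    (hf : ContinuousOn f Om)
    (hper : ∀ s q v w : ℂ, (s, q, v, w) ∈ Om → (s, q + 1, v, w) ∈ Om ∧ (s, q - 1, v, w) ∈ Om ∧
      f (s, q + 1, v, w) = f (s, q, v, w)) (hK : KR S ⊆ Om) :
    ∃ ρ M : ℝ, 0 < ρ ∧ ∀ x ∈ KR S, ball x (4 * ρ) ⊆ Om ∧ ∀ y ∈ ball x (4 * ρ), ‖f y‖ ≤ M := by
  obtain ⟨hleaf, hreg, -⟩ := hR S hS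
  set I : Set (ℝ × ℝ × ℝ × ℝ) := Icc (0:ℝ) 1 ×ˢ (Icc (0:ℝ) 1 ×ˢ (Icc S.a S.b ×ˢ Icc S.a S.b))
    with hI
  set Fm : ℝ × ℝ × ℝ × ℝ → C4 := fun z => rp z.1 z.2.1 (S.V z.2.2.1 z.2.1 z.1)
    (S.V z.2.2.2 z.2.1 z.1) with hFm
  have hcI : IsCompact I := isCompact_Icc.prod (isCompact_Icc.prod (isCompact_Icc.prod
    isCompact_Icc))
  have hV1 : ContinuousOn (fun z : ℝ × ℝ × ℝ × ℝ => S.V z.2.2.1 z.2.1 z.1) I := by
    refine hS.Vcont.comp (f := fun z : ℝ × ℝ × ℝ × ℝ => (z.2.2.1, z.2.1, z.1))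
      (by fun_prop) ?_
    rintro z ⟨h1, h2, h3, h4⟩
    exact ⟨h3, mem_univ _, h1⟩
  have hV2 : ContinuousOn (fun z : ℝ × ℝ × ℝ × ℝ => S.V z.2.2.2 z.2.1 z.1) I := by
    refine hS.Vcont.comp (f := fun z : ℝ × ℝ × ℝ × ℝ => (z.2.2.2, z.2.1, z.1))
      (by fun_prop) ?_
    rintro z ⟨h1, h2, h3, h4⟩
    exact ⟨h4, mem_univ _, h1⟩
  have hFc : ContinuousOn Fm I := by
    have e1 : ContinuousOn (fun z : ℝ × ℝ × ℝ × ℝ => ((S.V z.2.2.1 z.2.1 z.1 : ℝ) : ℂ)) I :=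
      Complex.continuous_ofReal.comp_continuousOn hV1
    have e2 : ContinuousOn (fun z : ℝ × ℝ × ℝ × ℝ => ((S.V z.2.2.2 z.2.1 z.1 : ℝ) : ℂ)) I :=
      Complex.continuous_ofReal.comp_continuousOn hV2
    have e3 : ContinuousOn (fun z : ℝ × ℝ × ℝ × ℝ => ((z.1 : ℝ) : ℂ)) I := by fun_prop
    have e4 : ContinuousOn (fun z : ℝ × ℝ × ℝ × ℝ => ((z.2.1 : ℝ) : ℂ)) I := by fun_prop
    exact e3.prodMk (e4.prodMk (e1.prodMk e2))
  have hKc : IsCompact (Fm '' I) := hcI.image_of_continuousOn hFc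
  have hsub : Fm '' I ⊆ KR S := by
    rintro _ ⟨z, ⟨h1, h2, h3, h4⟩, rfl⟩
    exact ⟨z.1, h1, z.2.1, _, _, hreg _ h1 _ _ h3, hreg _ h1 _ _ h4, rfl⟩
  obtain ⟨ρ, M, hρ, hb⟩ := exists_nbd hOm hf hKc (hsub.trans hK)
  refine ⟨ρ, M, hρ, ?_⟩
  rintro x ⟨s, hs, q, v, w, hv, hw, rfl⟩
  -- reduce to a fundamental domain
  set n : ℤ := ⌊q⌋ with hn
  set q' : ℝ := q - n with hq'
  have hq1 : q' ∈ Icc (0:ℝ) 1 := ⟨by rw [hq']; linarith [Int.floor_le q],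
    by rw [hq']; linarith [Int.lt_floor_add_one q]⟩
  have hsh : ∀ {v : ℝ}, (q, v) ∈ S.Reg s → (q', v) ∈ S.Reg s := by
    intro v hv
    have := Reg_shift hS hs (-n) hv
    rw [hq']
    simpa [sub_eq_add_neg] using this
  obtain ⟨Y, hY, hvY⟩ := hleaf s hs _ (hsh hv)
  obtain ⟨Y', hY', hwY⟩ := hleaf s hs _ (hsh hw)
  simp only at hvY hwY
  have hx0 : rp s q' v w ∈ Fm '' I := by
    refine ⟨(s, q', Y, Y'), ⟨hs, hq1, hY, hY'⟩, ?_⟩
    simp only [hFm]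
    rw [← hvY, ← hwY]
  obtain ⟨hb1, hb2⟩ := hb _ hx0
  have htr : ∀ y ∈ ball (rp s q v w) (4 * ρ), y ∈ Om ∧ ‖f y‖ ≤ M := by
    rintro ⟨y1, y2, y3, y4⟩ hy
    have hy' : ((y1, y2 - n, y3, y4) : C4) ∈ ball (rp s q' v w) (4 * ρ) := by
      rw [mem_ball, dist_eq_norm] at hy ⊢
      have e : ((y1, y2 - n, y3, y4) : C4) - rp s q' v w = (y1, y2, y3, y4) - rp s q v w := by
        simp only [rp, hq', Prod.mk_sub_mk, Prod.mk.injEq, true_and, and_true]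
        push_cast
        ring
      rw [e]
      exact hy
    have h1 := hb1 hy'
    have h2 := hb2 _ hy'
    obtain ⟨h3, h4⟩ := perZ hper n _ _ _ _ h1
    rw [sub_add_cancel] at h3 h4
    refine ⟨h3, ?_⟩
    rw [h4]
    exact h2
  exact ⟨fun y hy => (htr y hy).1, fun y hy => (htr y hy).2⟩

variable {S : Sys} {Om : Set C4} {A J Gm RR : C4 → ℂ} {k1 : ℝ}

theorem KR_sub (hS : S.Ok) (hL : LF S Om A J Gm RR k1) : KR S ⊆ Om := by
  rintro x ⟨s, hs, q, v, w, hv, hw, rfl⟩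
  exact hL.mem s hs q v (w : ℂ) hv (by simpa using hw) (by simpa using hS.hr)

/-- common uniform bounds -/
theorem exists_UB4 (hS : S.Ok) (hR : GReg) (hL : LF S Om A J Gm RR k1) :
    ∃ ρ C : ℝ, UB A Om (KR S) ρ C ∧ UB J Om (KR S) ρ C ∧ UB Gm Om (KR S) ρ C ∧
      UB RR Om (KR S) ρ C := by
  have hK := KR_sub hS hL
  have key : ∀ f : C4 → ℂ, DifferentiableOn ℂ f Om →
      (∀ s q v w : ℂ, (s, q, v, w) ∈ Om → (s, q + 1, v, w) ∈ Om ∧ (s, q - 1, v, w) ∈ Om ∧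
      f (s, q + 1, v, w) = f (s, q, v, w)) → ∃ ρ C : ℝ, UB f Om (KR S) ρ C := by
    intro f hf hper
    obtain ⟨ρ, M, hρ, hb⟩ := KR_nbd hS hR hL.opn hf.continuousOn hper hK
    obtain ⟨C, hC⟩ := exists_UB hf hρ (fun x hx => (hb x hx).1) (fun x hx => (hb x hx).2)
    exact ⟨ρ, C, hC⟩
  obtain ⟨ρ1, C1, h1⟩ := key A hL.hA (fun s q v w h => by
    obtain ⟨a, b, c, d, e, f⟩ := hL.per s q v w h; exact ⟨a, b, c⟩)
  obtain ⟨ρ2, C2, h2⟩ := key J hL.hJ (fun s q v w h => by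
    obtain ⟨a, b, c, d, e, f⟩ := hL.per s q v w h; exact ⟨a, b, d⟩)
  obtain ⟨ρ3, C3, h3⟩ := key Gm hL.hG (fun s q v w h => by
    obtain ⟨a, b, c, d, e, f⟩ := hL.per s q v w h; exact ⟨a, b, e⟩)
  obtain ⟨ρ4, C4, h4⟩ := key RR hL.hR (fun s q v w h => by
    obtain ⟨a, b, c, d, e, f⟩ := hL.per s q v w h; exact ⟨a, b, f⟩)
  have hpos : 0 < min (min ρ1 ρ2) (min ρ3 ρ4) :=
    lt_min (lt_min h1.hρ h2.hρ) (lt_min h3.hρ h4.hρ)
  refine ⟨min (min ρ1 ρ2) (min ρ3 ρ4), max (max C1 C2) (max C3 C4), h1.mono hpos ?_ ?_,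
    h2.mono hpos ?_ ?_, h3.mono hpos ?_ ?_, h4.mono hpos ?_ ?_⟩
  all_goals simp

/-- the point `(s, q, v, w)` -/
def pt (s q v : ℝ) (w : ℂ) : C4 := ((s : ℂ), (q : ℂ), (v : ℂ), w)

theorem pt_sub (s q v : ℝ) (w : ℂ) (y : ℝ) :
    pt s q v ((w.re : ℂ) + y * I) - rp s q v w.re = (0, 0, 0, (y : ℂ) * I) := by
  simp [pt, rp]

theorem pt_ball {s q v : ℝ} {w : ℂ} {y ρ : ℝ} (hy0 : 0 ≤ y) (hy : y < ρ) :
    pt s q v ((w.re : ℂ) + y * I) ∈ ball (rp s q v w.re) ρ ∧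
      ‖pt s q v ((w.re : ℂ) + y * I) - rp s q v w.re‖ = y := by
  have e : ‖pt s q v ((w.re : ℂ) + y * I) - rp s q v w.re‖ = y := by
    rw [pt_sub]
    simp only [Prod.norm_def, norm_zero, norm_mul, Complex.norm_real, Complex.norm_I, mul_one,
      Real.norm_eq_abs, abs_of_nonneg hy0]
    simp [hy0]
  refine ⟨?_, e⟩
  rw [mem_ball, dist_eq_norm, e]
  exact hy

/-- the second function -/
noncomputable def G2 (A J Gm RR : C4 → ℂ) (m : ℝ) (z : C4) : ℂ :=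
  (m : ℂ) + fderiv ℂ Gm z (0, 1, (m : ℂ), 0) - fderiv ℂ J z (0, 1, (m : ℂ), 0)
    - RR z * fderiv ℂ A z (0, 1, (m : ℂ), 0)

theorem bound_G {ρ C : ℝ} (hL : LF S Om A J Gm RR k1) (hS : S.Ok) (hk1 : 0 < k1)
    (hG : UB Gm Om (KR S) ρ C) {s : ℝ}
    (hs : s ∈ Icc (0:ℝ) 1) {q v : ℝ} {w : ℂ} (hv : (q, v) ∈ S.Reg s) (hw : (q, w.re) ∈ S.Reg s)
    (h0 : 0 < w.im) (h1 : w.im < ρ) (h2 : w.im ≤ k1 / (2 * C)) :
    k1 / 2 * w.im ≤ (Gm (pt s q v w)).im ∧ (Gm (pt s q v w)).im ≤ C * w.im := by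
  have hK : rp s q v w.re ∈ KR S := ⟨s, hs, q, v, w.re, hv, hw, rfl⟩
  have hKO : rp s q v w.re ∈ Om := KR_sub hS hL hK
  have hr0 : (Gm (rp s q v w.re)).im = 0 := hL.realG s q v w.re hKO
  have hwe : (w.re : ℂ) + w.im * I = w := Complex.re_add_im w
  have hC := hG.hC
  constructor
  · -- lower bound
    have hder : ∀ y ∈ Icc (0:ℝ) w.im, HasDerivAt
        (fun y : ℝ => (Gm (pt s q v ((w.re : ℂ) + y * I))).im)
        (fderiv ℂ Gm (pt s q v ((w.re : ℂ) + y * I)) (0, 0, 0, 1)).re y := by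
      intro y hy
      obtain ⟨hb1, -⟩ := pt_ball (s := s) (q := q) (v := v) (w := w) hy.1 (hy.2.trans_lt h1)
      have hO := hG.mem _ hK _ hb1
      have hd : HasFDerivAt Gm (fderiv ℂ Gm (pt s q v ((w.re : ℂ) + y * I)))
          (pt s q v ((w.re : ℂ) + y * I)) :=
        (hL.hG.differentiableAt (hL.opn.mem_nhds hO)).hasFDerivAt
      have hcu : HasDerivAt (fun u : ℂ => pt s q v u) ((0, 0, 0, 1) : C4)
          ((w.re : ℂ) + y * I) :=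
        (hasDerivAt_const _ _).prodMk ((hasDerivAt_const _ _).prodMk
          ((hasDerivAt_const _ _).prodMk (hasDerivAt_id _)))
      have h3 : HasDerivAt (fun u : ℂ => Gm (pt s q v u))
          (fderiv ℂ Gm (pt s q v ((w.re : ℂ) + y * I)) (0, 0, 0, 1)) ((w.re : ℂ) + y * I) :=
        HasFDerivAt.comp_hasDerivAt (l := Gm) (f := fun u : ℂ => pt s q v u) _ hd hcu
      exact Pool.Agent.Helper68.FT.im_line h3
    have hge : ∀ y ∈ interior (Icc (0:ℝ) w.im), k1 / 2 ≤ deriv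
        (fun y : ℝ => (Gm (pt s q v ((w.re : ℂ) + y * I))).im) y := by
      intro y hy
      rw [interior_Icc] at hy
      have hy' : y ∈ Icc (0:ℝ) w.im := Ioo_subset_Icc_self hy
      rw [(hder y hy').deriv]
      obtain ⟨hb1, hb2⟩ := pt_ball (s := s) (q := q) (v := v) (w := w) hy'.1 (hy'.2.trans_lt h1)
      have h4 := hG.lip' _ hK _ hb1
      rw [hb2] at h4
      have h5 : k1 ≤ (fderiv ℂ Gm (rp s q v w.re) (0, 0, 0, 1)).re :=
        hL.pos s hs q v w.re hv hw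
      have h6 : ‖(fderiv ℂ Gm (pt s q v ((w.re : ℂ) + y * I)) - fderiv ℂ Gm (rp s q v w.re))
          ((0, 0, 0, 1) : C4)‖ ≤ C * y * 1 := by
        refine (ContinuousLinearMap.le_opNorm _ _).trans ?_
        have : ‖((0, 0, 0, 1) : C4)‖ = 1 := by simp [Prod.norm_def]
        rw [this]
        gcongr
      have h7 := (Complex.abs_re_le_norm _).trans h6
      rw [sub_apply, Complex.sub_re, abs_le] at h7
      have h8 : C * y ≤ k1 / 2 := by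
        calc C * y ≤ C * (k1 / (2 * C)) := by
              have := hy'.2.trans h2
              gcongr
          _ = k1 / 2 := by field_simp
      linarith [h7.1]
    have hmv := (convex_Icc (0:ℝ) w.im).mul_sub_le_image_sub_of_le_deriv
      (f := fun y : ℝ => (Gm (pt s q v ((w.re : ℂ) + y * I))).im)
      (fun y hy => (hder y hy).continuousAt.continuousWithinAt)
      (fun y hy => (hder y (interior_subset hy)).differentiableAt.differentiableWithinAt)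
      (C := k1 / 2) (fun y hy => hge y hy) 0 ⟨le_rfl, h0.le⟩ w.im ⟨h0.le, le_rfl⟩ h0.le
    simp only [hwe] at hmv
    have e0 : pt s q v ((w.re : ℂ) + ((0:ℝ) : ℂ) * I) = rp s q v w.re := by simp [pt, rp]
    rw [e0, hr0] at hmv
    linarith
  · obtain ⟨hb1, hb2⟩ := pt_ball (s := s) (q := q) (v := v) (w := w) h0.le h1
    have h4 := hG.lip _ hK _ hb1
    rw [hb2, hwe] at h4
    have h7 := (Complex.abs_im_le_norm _).trans h4
    rw [Complex.sub_im, hr0, sub_zero] at h7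
    exact (le_abs_self _).trans h7

theorem norm_vec (m : ℝ) : ‖((0, 1, (m : ℂ), 0) : C4)‖ ≤ 1 + |m| := by
  simp only [Prod.norm_def, norm_zero, norm_one, Complex.norm_real, Real.norm_eq_abs]
  have := abs_nonneg m
  simp [this]

theorem bound_G2 {ρ C : ℝ} (hL : LF S Om A J Gm RR k1) (hS : S.Ok)
    (hA : UB A Om (KR S) ρ C) (hJ : UB J Om (KR S) ρ C)
    (hG : UB Gm Om (KR S) ρ C) (hRR : UB RR Om (KR S) ρ C) {s : ℝ}
    (hs : s ∈ Icc (0:ℝ) 1) {q v : ℝ} {w : ℂ} (hv : (q, v) ∈ S.Reg s) (hw : (q, w.re) ∈ S.Reg s)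
    (h0 : 0 < w.im) (h1 : w.im < ρ) (m : ℝ) :
    |(G2 A J Gm RR m (pt s q v w)).im| ≤ (2 * C + 2 * C ^ 2) * (1 + |m|) * w.im := by
  have hK : rp s q v w.re ∈ KR S := ⟨s, hs, q, v, w.re, hv, hw, rfl⟩
  have hKO : rp s q v w.re ∈ Om := KR_sub hS hL hK
  have hwe : (w.re : ℂ) + w.im * I = w := Complex.re_add_im w
  have hC := hG.hC
  obtain ⟨hb1, hb2⟩ := pt_ball (s := s) (q := q) (v := v) (w := w) h0.le h1
  rw [hwe] at hb1 hb2
  set ζ := pt s q v w with hζ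
  set ζ0 := rp s q v w.re with hζ0
  set u : C4 := (0, 1, (m : ℂ), 0) with hu
  have hun : ‖u‖ ≤ 1 + |m| := norm_vec m
  have hrpu : rp 0 1 m 0 = u := by simp [rp, hu]
  have hm0 : 0 ≤ 1 + |m| := by positivity
  -- real values
  have r1 : (fderiv ℂ Gm ζ0 u).im = 0 := by
    rw [← hrpu]; exact real_fderiv hL.opn hL.hG hL.realG hKO 0 1 m 0
  have r2 : (fderiv ℂ J ζ0 u).im = 0 := by
    rw [← hrpu]; exact real_fderiv hL.opn hL.hJ hL.realJ hKO 0 1 m 0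
  have r3 : (fderiv ℂ A ζ0 u).im = 0 := by
    rw [← hrpu]; exact real_fderiv hL.opn hL.hA hL.realA hKO 0 1 m 0
  have r4 : (RR ζ0).im = 0 := hL.realR s q v w.re hKO
  have r0 : (G2 A J Gm RR m ζ0).im = 0 := by
    simp only [G2, Complex.sub_im, Complex.add_im, Complex.mul_im, Complex.ofReal_im]
    rw [← hu, r1, r2, r3, r4]
    ring
  -- differences
  have d1 : ‖fderiv ℂ Gm ζ u - fderiv ℂ Gm ζ0 u‖ ≤ C * w.im * (1 + |m|) := by
    rw [← sub_apply]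
    refine (ContinuousLinearMap.le_opNorm _ _).trans ?_
    have := hG.lip' _ hK _ hb1
    rw [hb2] at this
    gcongr
  have d2 : ‖fderiv ℂ J ζ u - fderiv ℂ J ζ0 u‖ ≤ C * w.im * (1 + |m|) := by
    rw [← sub_apply]
    refine (ContinuousLinearMap.le_opNorm _ _).trans ?_
    have := hJ.lip' _ hK _ hb1
    rw [hb2] at this
    gcongr
  have d3 : ‖fderiv ℂ A ζ u - fderiv ℂ A ζ0 u‖ ≤ C * w.im * (1 + |m|) := by
    rw [← sub_apply]
    refine (ContinuousLinearMap.le_opNorm _ _).trans ?_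
    have := hA.lip' _ hK _ hb1
    rw [hb2] at this
    gcongr
  have d4 : ‖RR ζ - RR ζ0‖ ≤ C * w.im := by
    have := hRR.lip _ hK _ hb1
    rwa [hb2] at this
  have n1 : ‖fderiv ℂ A ζ u‖ ≤ C * (1 + |m|) := by
    refine (ContinuousLinearMap.le_opNorm _ _).trans ?_
    have := hA.bd' _ hK _ hb1
    gcongr
  have n2 : ‖RR ζ0‖ ≤ C := hRR.bd _ hK _ (mem_ball_self hRR.hρ)
  have hdiff : ‖G2 A J Gm RR m ζ - G2 A J Gm RR m ζ0‖ ≤
      (2 * C + 2 * C ^ 2) * (1 + |m|) * w.im := by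
    have e : G2 A J Gm RR m ζ - G2 A J Gm RR m ζ0 =
        (fderiv ℂ Gm ζ u - fderiv ℂ Gm ζ0 u) - (fderiv ℂ J ζ u - fderiv ℂ J ζ0 u)
        - ((RR ζ - RR ζ0) * fderiv ℂ A ζ u + RR ζ0 * (fderiv ℂ A ζ u - fderiv ℂ A ζ0 u)) := by
      simp only [G2, ← hu]
      ring
    rw [e]
    have t1 : ‖(RR ζ - RR ζ0) * fderiv ℂ A ζ u‖ ≤ C * w.im * (C * (1 + |m|)) := by
      rw [norm_mul]
      gcongr
    have t2 : ‖RR ζ0 * (fderiv ℂ A ζ u - fderiv ℂ A ζ0 u)‖ ≤ C * (C * w.im * (1 + |m|)) := by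
      rw [norm_mul]
      gcongr
    calc _ ≤ ‖fderiv ℂ Gm ζ u - fderiv ℂ Gm ζ0 u‖ + ‖fderiv ℂ J ζ u - fderiv ℂ J ζ0 u‖
          + (‖(RR ζ - RR ζ0) * fderiv ℂ A ζ u‖ +
            ‖RR ζ0 * (fderiv ℂ A ζ u - fderiv ℂ A ζ0 u)‖) := by
          refine (norm_sub_le _ _).trans ?_
          gcongr
          · exact norm_sub_le _ _
          · exact norm_add_le _ _
      _ ≤ C * w.im * (1 + |m|) + C * w.im * (1 + |m|) +
          (C * w.im * (C * (1 + |m|)) + C * (C * w.im * (1 + |m|))) := by gcongr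
      _ = _ := by ring
  have h7 := (Complex.abs_im_le_norm _).trans hdiff
  rwa [Complex.sub_im, r0, sub_zero] at h7

end Pool.Agent.Helper10.FT
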