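import Pool.Agent.Helper10.FT.LeafB

/-! # FT-LEAF, the identity -/

set_option autoImplicit false

namespace Pool.Agent.Helper10.FT

open Complex Set Filter Topology Metric
open Pool.Agent.Helper76.FT
open Pool.Agent.Helper30.FT (P3 E3 Pi3 Sys_p_eq Sys_En_eq P3_E3_main continuousAt_fderiv)
open Pool.Agent.Helper32.FTNewton (isOpen_str diffAt sh_dz)

/-- total derivative along a straight line of a torus function -/
theorem line_deriv {f : ℂ → ℝ → ℂ} {ρ : ℝ} (h : SH f ρ) {q : ℝ} (hρ : 0 < ρ) {s : ℝ}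
    (hs : s ∈ Icc (0:ℝ) 1) {D : ℂ}
    (hD : HasDerivWithinAt (fun t => f (q : ℂ) t) D (Icc (0:ℝ) 1) s) (v : ℝ) :
    HasDerivWithinAt (fun τ : ℝ => f ((q + (τ - s) * v : ℝ) : ℂ) τ)
      (D + v * dz f (q : ℂ) s) (Icc (0:ℝ) 1) s := by
  have hq : (q : ℂ) ∈ Str ρ := Pool.Agent.Helper68.FT.real_mem_str hρ q
  have h3 : HasDerivWithinAt (fun τ : ℝ => f ((q + (τ - s) * v : ℝ) : ℂ) τ - f (q : ℂ) τ -
      dz f (q : ℂ) s * (((τ - s) * v : ℝ) : ℂ)) 0 (Icc (0:ℝ) 1) s := by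
    rw [hasDerivWithinAt_iff_isLittleO, Asymptotics.isLittleO_iff]
    intro ε hε
    obtain ⟨r0, hr0, hev⟩ := Pool.Agent.Helper68.FT.strict h hq hs (ε := ε / (|v| + 1))
      (by positivity)
    have hcont : Tendsto (fun τ : ℝ => ((q + (τ - s) * v : ℝ) : ℂ)) (𝓝[Icc (0:ℝ) 1] s)
        (𝓝 (q : ℂ)) := by
      have h1 : Continuous (fun τ : ℝ => ((q + (τ - s) * v : ℝ) : ℂ)) := by fun_prop
      have h2 := h1.tendsto s
      simp only [sub_self, zero_mul, add_zero] at h2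
      exact h2.mono_left nhdsWithin_le_nhds
    filter_upwards [hev, hcont (ball_mem_nhds (q : ℂ) hr0)] with τ hτ h1
    have h5 := hτ (q : ℂ) (mem_ball_self hr0) _ h1
    have e1 : ((q + (τ - s) * v : ℝ) : ℂ) - (q : ℂ) = (((τ - s) * v : ℝ) : ℂ) := by
      push_cast; ring
    rw [e1] at h5
    simp only [sub_self, zero_mul, add_zero, Complex.ofReal_zero, mul_zero, sub_zero, smul_zero]
    refine h5.trans ?_
    rw [Complex.norm_real, Real.norm_eq_abs, abs_mul, Real.norm_eq_abs]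
    have h6 : |v| ≤ |v| + 1 := by linarith
    calc ε / (|v| + 1) * (|τ - s| * |v|) ≤ ε / (|v| + 1) * (|τ - s| * (|v| + 1)) := by gcongr
      _ = ε * |τ - s| := by field_simp
  have h4 : HasDerivWithinAt (fun τ : ℝ => dz f (q : ℂ) s * (((τ - s) * v : ℝ) : ℂ))
      (dz f (q : ℂ) s * v) (Icc (0:ℝ) 1) s := by
    have h5 : HasDerivAt (fun τ : ℝ => (((τ - s) * v : ℝ) : ℂ)) (v : ℂ) s := by
      have : HasDerivAt (fun τ : ℝ => (τ - s) * v) v s := by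
        simpa using ((hasDerivAt_id s).sub_const s).mul_const v
      exact this.ofReal_comp
    exact (h5.const_mul _).hasDerivWithinAt
  have e : (fun τ : ℝ => f ((q + (τ - s) * v : ℝ) : ℂ) τ) = fun τ : ℝ =>
      (f ((q + (τ - s) * v : ℝ) : ℂ) τ - f (q : ℂ) τ -
      dz f (q : ℂ) s * (((τ - s) * v : ℝ) : ℂ)) + f (q : ℂ) τ +
      dz f (q : ℂ) s * (((τ - s) * v : ℝ) : ℂ) := by
    funext τ; ring
  rw [e]
  exact ((h3.add hD).add h4).congr_deriv (by ring)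

/-- derivatives of the momentum and the energy of a leaf -/
theorem leaf_deriv {S : Sys} (hS : S.Ok) (hR : GReg) {s : ℝ} (hs : s ∈ Icc (0:ℝ) 1) {Y : ℝ}
    (hY : Y ∈ Icc S.a S.b) {q m : ℝ} (hm : HasDerivAt (fun q' => S.V Y q' s) m q) :
    ∃ a b : ℂ,
      HasDerivAt (fun q' : ℝ => S.p s (q' : ℂ) (S.V Y q' s : ℂ)) a q ∧
      HasDerivAt (fun q' : ℝ => S.En s (q' : ℂ) (S.V Y q' s : ℂ)) b q ∧
      HasDerivAt (fun τ : ℝ => S.p τ ((q + (τ - s) * S.V Y q s : ℝ) : ℂ) (S.V Y q s : ℂ))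
        (-b + S.V Y q s * a) s := by
  obtain ⟨_, hreg, _, _, _, hopen, _⟩ := hR S hS
  obtain ⟨Mκ, hMκ⟩ := hS.κbd
  have hU : IsOpen (S.Nb 0 S.R) := hopen 0 S.R
  set v : ℝ := S.V Y q s with hv
  have hqv : (q, v) ∈ S.Reg s := hreg s hs q Y hY
  have hnb : ((q : ℂ), (v : ℂ)) ∈ S.Nb s S.r := ⟨(q, v), hqv, by simpa using hS.hr,
    by simpa using hS.hr⟩
  have hpath : ∀ x ∈ Icc (0:ℝ) 1, Pi3 x ((s : ℂ), (q : ℂ), (v : ℂ)) ∈ S.Nb 0 S.R :=
    fun x hx => hS.path s hs _ hnb x hx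
  obtain ⟨hdP, hdE, hPw, hEw, hPt⟩ := P3_E3_main hU hS.κhol hMκ hpath
  set LP := fderiv ℂ (P3 S.κ) ((s : ℂ), (q : ℂ), (v : ℂ)) with hLP
  set LE := fderiv ℂ (E3 S.κ) ((s : ℂ), (q : ℂ), (v : ℂ)) with hLE
  have hFP : HasFDerivAt (P3 S.κ) LP ((s : ℂ), (q : ℂ), (v : ℂ)) := hdP.hasFDerivAt
  have hFE : HasFDerivAt (E3 S.κ) LE ((s : ℂ), (q : ℂ), (v : ℂ)) := hdE.hasFDerivAt
  have cw : HasDerivAt (fun w' : ℂ => (((s : ℂ), (q : ℂ), w') : ℂ × ℂ × ℂ)) (0, 0, 1) (v : ℂ) :=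
    (hasDerivAt_const _ _).prodMk ((hasDerivAt_const _ _).prodMk (hasDerivAt_id _))
  have cq : HasDerivAt (fun q' : ℂ => (((s : ℂ), q', (v : ℂ)) : ℂ × ℂ × ℂ)) (0, 1, 0) (q : ℂ) :=
    (hasDerivAt_const _ _).prodMk ((hasDerivAt_id _).prodMk (hasDerivAt_const _ _))
  have ct : HasDerivAt (fun t' : ℂ => ((t', (q : ℂ), (v : ℂ)) : ℂ × ℂ × ℂ)) (1, 0, 0) (s : ℂ) :=
    (hasDerivAt_id _).prodMk ((hasDerivAt_const _ _).prodMk (hasDerivAt_const _ _))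
  have e1 : LP (0, 0, 1) = S.κ (q - s * v) v :=
    (HasFDerivAt.comp_hasDerivAt (l := P3 S.κ)
      (f := fun w' : ℂ => (((s : ℂ), (q : ℂ), w') : ℂ × ℂ × ℂ)) _ hFP cw).unique hPw
  have e2 : LE (0, 0, 1) = v * S.κ (q - s * v) v :=
    (HasFDerivAt.comp_hasDerivAt (l := E3 S.κ)
      (f := fun w' : ℂ => (((s : ℂ), (q : ℂ), w') : ℂ × ℂ × ℂ)) _ hFE cw).unique hEw
  have e3 : LP (1, 0, 0) = -LE (0, 1, 0) := by
    have h1 := HasFDerivAt.comp_hasDerivAt (l := P3 S.κ)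
      (f := fun t' : ℂ => ((t', (q : ℂ), (v : ℂ)) : ℂ × ℂ × ℂ)) _ hFP ct
    have h2 := HasFDerivAt.comp_hasDerivAt (l := E3 S.κ)
      (f := fun q' : ℂ => (((s : ℂ), q', (v : ℂ)) : ℂ × ℂ × ℂ)) _ hFE cq
    have h3 := h1.unique hPt
    rw [h3]
    congr 1
    exact h2.deriv
  have hqr : HasDerivAt (fun q' : ℝ => (q' : ℂ)) 1 q := Complex.ofRealCLM.hasDerivAt
  have hVr : HasDerivAt (fun q' : ℝ => ((S.V Y q' s : ℝ) : ℂ)) (m : ℂ) q := hm.ofReal_comp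
  have cY : HasDerivAt (fun q' : ℝ => (((s : ℂ), (q' : ℂ), ((S.V Y q' s : ℝ) : ℂ)) : ℂ × ℂ × ℂ))
      (0, 1, (m : ℂ)) q := (hasDerivAt_const _ _).prodMk (hqr.prodMk hVr)
  refine ⟨LP (0, 1, (m : ℂ)), LE (0, 1, (m : ℂ)), ?_, ?_, ?_⟩
  · have h1 : HasFDerivAt (P3 S.κ) (LP.restrictScalars ℝ)
      ((s : ℂ), (q : ℂ), ((S.V Y q s : ℝ) : ℂ)) := hFP.restrictScalars ℝ
    have h2 := h1.comp_hasDerivAt q cY
    refine HasDerivAt.congr_of_eventuallyEq (f := P3 S.κ ∘ fun q' : ℝ =>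
      (((s : ℂ), (q' : ℂ), ((S.V Y q' s : ℝ) : ℂ)) : ℂ × ℂ × ℂ)) h2
      (Eventually.of_forall fun q' => ?_)
    exact Sys_p_eq S s q' _
  · have h1 : HasFDerivAt (E3 S.κ) (LE.restrictScalars ℝ)
      ((s : ℂ), (q : ℂ), ((S.V Y q s : ℝ) : ℂ)) := hFE.restrictScalars ℝ
    have h2 := h1.comp_hasDerivAt q cY
    refine HasDerivAt.congr_of_eventuallyEq (f := E3 S.κ ∘ fun q' : ℝ =>
      (((s : ℂ), (q' : ℂ), ((S.V Y q' s : ℝ) : ℂ)) : ℂ × ℂ × ℂ)) h2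
      (Eventually.of_forall fun q' => ?_)
    exact Sys_En_eq S s q' _
  · have hτ : HasDerivAt (fun τ : ℝ => (τ : ℂ)) 1 s := Complex.ofRealCLM.hasDerivAt
    have hqτ : HasDerivAt (fun τ : ℝ => ((q + (τ - s) * v : ℝ) : ℂ)) (v : ℂ) s := by
      have : HasDerivAt (fun τ : ℝ => q + (τ - s) * v) v s := by
        simpa using (((hasDerivAt_id s).sub_const s).mul_const v).const_add q
      exact this.ofReal_comp
    have cτ : HasDerivAt (fun τ : ℝ => (((τ : ℂ), ((q + (τ - s) * v : ℝ) : ℂ), (v : ℂ)) :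
        ℂ × ℂ × ℂ)) (1, (v : ℂ), 0) s := hτ.prodMk (hqτ.prodMk (hasDerivAt_const _ _))
    have h1 : HasFDerivAt (P3 S.κ) (LP.restrictScalars ℝ)
        ((s : ℂ), ((q + (s - s) * v : ℝ) : ℂ), (v : ℂ)) := by
      simp only [sub_self, zero_mul, add_zero]
      exact hFP.restrictScalars ℝ
    have h2 := h1.comp_hasDerivAt s cτ
    have h3 : HasDerivAt (fun τ : ℝ => S.p τ ((q + (τ - s) * v : ℝ) : ℂ) (v : ℂ))
        (LP (1, (v : ℂ), 0)) s := by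
      refine HasDerivAt.congr_of_eventuallyEq (f := P3 S.κ ∘ fun τ : ℝ =>
        (((τ : ℂ), ((q + (τ - s) * v : ℝ) : ℂ), (v : ℂ)) : ℂ × ℂ × ℂ)) h2
        (Eventually.of_forall fun τ => ?_)
      exact Sys_p_eq S τ _ _
    refine h3.congr_deriv ?_
    rw [C3_decomp LP 1 (v : ℂ) 0, C3_decomp LE 0 1 (m : ℂ), C3_decomp LP 0 1 (m : ℂ), e1, e2, e3]
    ring

variable {S : Sys} {Om : Set C4} {A J Gm RR : C4 → ℂ} {k1 : ℝ}

/-- chain rule along the torus and the leaf -/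
theorem chainF {f : C4 → ℂ} (hO : IsOpen Om) (hf : DifferentiableOn ℂ f Om) {Y s q m : ℝ}
    {w : ℂ → ℂ} {wq : ℂ} (hm : HasDerivAt (fun q' => S.V Y q' s) m q)
    (hw : HasDerivAt w wq (q : ℂ)) (hmem : pt s q (S.V Y q s) (w q) ∈ Om) :
    HasDerivAt (fun q' : ℝ => f (pt s q' (S.V Y q' s) (w q')))
      (fderiv ℂ f (pt s q (S.V Y q s) (w q)) (0, 1, (m : ℂ), wq)) q := by
  have hqr : HasDerivAt (fun q' : ℝ => (q' : ℂ)) 1 q := Complex.ofRealCLM.hasDerivAt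
  have hVr : HasDerivAt (fun q' : ℝ => ((S.V Y q' s : ℝ) : ℂ)) (m : ℂ) q := hm.ofReal_comp
  have hwr : HasDerivAt (fun q' : ℝ => w (q' : ℂ)) wq q := hw.comp_ofReal
  have cY : HasDerivAt (fun q' : ℝ => pt s q' (S.V Y q' s) (w q'))
      ((0, 1, (m : ℂ), wq) : C4) q :=
    (hasDerivAt_const _ _).prodMk (hqr.prodMk (hVr.prodMk hwr))
  have h1 : HasFDerivAt f ((fderiv ℂ f (pt s q (S.V Y q s) (w q))).restrictScalars ℝ)
      (pt s q (S.V Y q s) (w q)) :=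
    ((hf.differentiableAt (hO.mem_nhds hmem)).hasFDerivAt).restrictScalars ℝ
  exact h1.comp_hasDerivAt q cY

/-- the packet -/
theorem ft_leaf_of (hR : GReg) (hM : GMom) (hT : GTorP) (hLF : GLF) (hV : GLeafV) : GLeaf := by
  intro S hS
  obtain ⟨Om, A, J, Gm, RR, k1, hk1, hL⟩ := hLF S hS
  obtain ⟨ρ, C, hA, hJ, hG, hRR⟩ := exists_UB4 hS hR hL
  obtain ⟨k0, M, hk0, hM0, hTor⟩ := hT S hS
  obtain ⟨k0', M', hk0', hM0', -, -, hm⟩ := hM S hS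
  obtain ⟨_, hreg, _, _, _, hopen, _⟩ := hR S hS
  have hC := hG.hC
  have hρ := hG.hρ
  have hr := hS.hr
  refine ⟨min (ρ / 2) (min (S.r / 2) (k1 / (2 * C))), by positivity, ?_⟩
  intro Y hY N m hper han
  obtain ⟨vq, hvc, hvd⟩ := hV S hS Y hY N m hper han
  -- bound for vq
  have hvper : ∀ q : ℝ, ∀ s ∈ Icc (0:ℝ) 1, ∀ n : ℤ, vq (q + n) s = vq q s := by
    intro q s hs n
    have h1 := hvd (q + n) s hs
    have h2 : HasDerivAt (fun q' : ℝ => S.V Y (q' + n) s) (vq (q + n) s) q :=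
      h1.comp_add_const q (n : ℝ)
    have h3 : (fun q' : ℝ => S.V Y (q' + n) s) = fun q' => S.V Y q' s := by
      funext q'
      have hp : Function.Periodic (fun q => S.V Y q s) 1 := fun q => hS.Vper Y hY q s hs
      have := hp.int_mul n q'
      simpa using this
    rw [h3] at h2
    exact h2.unique (hvd q s hs)
  obtain ⟨B, hB⟩ : ∃ B : ℝ, ∀ q : ℝ, ∀ s ∈ Icc (0:ℝ) 1, |vq q s| ≤ B := by
    have hc : IsCompact (Icc (0:ℝ) 1 ×ˢ Icc (0:ℝ) 1) := isCompact_Icc.prod isCompact_Icc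
    obtain ⟨B, hB⟩ := hc.exists_bound_of_continuousOn (f := fun z : ℝ × ℝ => vq z.1 z.2)
      (hvc.mono (prod_mono (subset_univ _) subset_rfl))
    refine ⟨B, fun q s hs => ?_⟩
    have h1 := hB (q - ⌊q⌋, s) ⟨⟨by linarith [Int.floor_le q],
      by linarith [Int.lt_floor_add_one q]⟩, hs⟩
    have h2 := hvper (q - ⌊q⌋) s hs ⌊q⌋
    rw [sub_add_cancel] at h2
    rw [h2]
    exact h1
  have hB0 : 0 ≤ B := (abs_nonneg _).trans (hB 0 0 ⟨le_rfl, zero_le_one⟩)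
  refine ⟨k1 / 2, C + (2 * C + 2 * C ^ 2) * (1 + B), fun s q w => Gm (pt s q (S.V Y q s) w),
    fun s q w => G2 A J Gm RR (vq q s) (pt s q (S.V Y q s) w), by positivity, by positivity, ?_⟩
  intro δ ρ' w c hδ hTw
  obtain ⟨hshP, hshQ, -, hPt, -, -, hb⟩ := hTor δ ρ' w c hTw
  have hd1 : δ ≤ ρ / 2 := hδ.trans (min_le_left _ _)
  have hd2 : δ ≤ S.r / 2 := hδ.trans ((min_le_right _ _).trans (min_le_left _ _))
  have hd3 : δ ≤ k1 / (2 * C) := hδ.trans ((min_le_right _ _).trans (min_le_right _ _))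
  have hstr : ∀ x : ℝ, (x : ℂ) ∈ Str ρ' := Pool.Agent.Helper68.FT.real_mem_str hTw.hρ
  -- facts at each point
  have hvR : ∀ q : ℝ, ∀ s ∈ Icc (0:ℝ) 1, (q, S.V Y q s) ∈ S.Reg s := fun q s hs =>
    hreg s hs q Y hY
  have himr : ∀ q : ℝ, ∀ s ∈ Icc (0:ℝ) 1, |(w (q : ℂ) s).im| < S.r := by
    intro q s hs
    obtain ⟨h1, h2⟩ := hTw.pos q s hs
    rw [abs_of_pos h1]
    linarith
  have hmem : ∀ q : ℝ, ∀ s ∈ Icc (0:ℝ) 1, pt s q (S.V Y q s) (w (q : ℂ) s) ∈ Om := fun q s hs =>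
    hL.mem s hs q _ _ (hvR q s hs) (hTw.reg q s hs) (himr q s hs)
  have hAeq : ∀ q : ℝ, ∀ s ∈ Icc (0:ℝ) 1, A (pt s q (S.V Y q s) (w (q : ℂ) s)) =
      S.p s (q : ℂ) (w (q : ℂ) s) - S.p s (q : ℂ) (S.V Y q s : ℂ) := fun q s hs =>
    hL.eqA s hs q _ _ (hvR q s hs) (hTw.reg q s hs) (himr q s hs)
  have hJeq : ∀ q : ℝ, ∀ s ∈ Icc (0:ℝ) 1, J (pt s q (S.V Y q s) (w (q : ℂ) s)) *
      A (pt s q (S.V Y q s) (w (q : ℂ) s)) =
      S.En s (q : ℂ) (w (q : ℂ) s) - S.En s (q : ℂ) (S.V Y q s : ℂ) := fun q s hs =>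
    hL.eqJ s hs q _ _ (hvR q s hs) (hTw.reg q s hs) (himr q s hs)
  have hpreal : ∀ q : ℝ, ∀ s ∈ Icc (0:ℝ) 1, ∀ v : ℝ, (q, v) ∈ S.Reg s →
      (S.p s (q : ℂ) (v : ℂ)).im = 0 := by
    intro q s hs v hv
    have hnb : ((q : ℂ), (v : ℂ)) ∈ S.Nb s S.r := ⟨(q, v), hv, by simpa using hr,
      by simpa using hr⟩
    have h1 := ((hm s hs).2.2 _ hnb).2.2.2.2.2.2.2.2.2.1
    simp only [Complex.conj_ofReal] at h1
    exact Complex.conj_eq_iff_im.1 h1.symm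
  have hApos : ∀ q : ℝ, ∀ s ∈ Icc (0:ℝ) 1,
      0 < (S.p s (q : ℂ) (w (q : ℂ) s) - S.p s (q : ℂ) (S.V Y q s : ℂ)).im := by
    intro q s hs
    rw [Complex.sub_im, hpreal q s hs _ (hvR q s hs), sub_zero]
    have h1 := (hb q s hs).1
    have h2 := (hTw.pos q s hs).1
    exact (mul_pos hk0 h2).trans_le h1
  -- continuity of the point
  have hptc : ContinuousOn (fun z : ℝ × ℝ => pt z.2 z.1 (S.V Y z.1 z.2) (w (z.1 : ℂ) z.2))
      (univ ×ˢ Icc (0:ℝ) 1) := by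
    have c1 : ContinuousOn (fun z : ℝ × ℝ => ((z.2 : ℝ) : ℂ)) (univ ×ˢ Icc (0:ℝ) 1) := by fun_prop
    have c2 : ContinuousOn (fun z : ℝ × ℝ => ((z.1 : ℝ) : ℂ)) (univ ×ˢ Icc (0:ℝ) 1) := by fun_prop
    have c3 : ContinuousOn (fun z : ℝ × ℝ => ((S.V Y z.1 z.2 : ℝ) : ℂ)) (univ ×ˢ Icc (0:ℝ) 1) := by
      refine Complex.continuous_ofReal.comp_continuousOn ?_
      refine hS.Vcont.comp (f := fun z : ℝ × ℝ => (Y, z.1, z.2)) (by fun_prop) ?_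
      rintro z ⟨-, h2⟩
      exact ⟨hY, mem_univ _, h2⟩
    have c4 : ContinuousOn (fun z : ℝ × ℝ => w (z.1 : ℂ) z.2) (univ ×ˢ Icc (0:ℝ) 1) := by
      refine hTw.sh.cont.comp (f := fun z : ℝ × ℝ => ((z.1 : ℂ), z.2)) (by fun_prop) ?_
      rintro z ⟨-, h2⟩
      exact ⟨hstr _, h2⟩
    exact c1.prodMk (c2.prodMk (c3.prodMk c4))
  have hmaps : MapsTo (fun z : ℝ × ℝ => pt z.2 z.1 (S.V Y z.1 z.2) (w (z.1 : ℂ) z.2))
      (univ ×ˢ Icc (0:ℝ) 1) Om := fun z hz => hmem z.1 z.2 hz.2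
  have hcf : ∀ f : C4 → ℂ, DifferentiableOn ℂ f Om → ContinuousOn (fun z : ℝ × ℝ =>
      f (pt z.2 z.1 (S.V Y z.1 z.2) (w (z.1 : ℂ) z.2))) (univ ×ˢ Icc (0:ℝ) 1) :=
    fun f hf => hf.continuousOn.comp hptc hmaps
  have hcf' : ∀ f : C4 → ℂ, DifferentiableOn ℂ f Om → ContinuousOn (fun z : ℝ × ℝ =>
      fderiv ℂ f (pt z.2 z.1 (S.V Y z.1 z.2) (w (z.1 : ℂ) z.2))) (univ ×ˢ Icc (0:ℝ) 1) := by
    intro f hf
    have h1 : ContinuousOn (fderiv ℂ f) Om := fun x hx =>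
      (continuousAt_fderiv hL.opn hf hx).continuousWithinAt
    exact h1.comp hptc hmaps
  have hvcC : ContinuousOn (fun z : ℝ × ℝ => ((vq z.1 z.2 : ℝ) : ℂ)) (univ ×ˢ Icc (0:ℝ) 1) :=
    Complex.continuous_ofReal.comp_continuousOn hvc
  have hdzc : ContinuousOn (fun z : ℝ × ℝ => dz w (z.1 : ℂ) z.2) (univ ×ˢ Icc (0:ℝ) 1) := by
    refine (sh_dz hTw.sh).cont.comp (f := fun z : ℝ × ℝ => ((z.1 : ℂ), z.2)) (by fun_prop) ?_
    rintro z ⟨-, h2⟩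
    exact ⟨hstr _, h2⟩
  have hu : ContinuousOn (fun z : ℝ × ℝ => ((0, 1, ((vq z.1 z.2 : ℝ) : ℂ), 0) : C4))
      (univ ×ˢ Icc (0:ℝ) 1) :=
    continuousOn_const.prodMk (continuousOn_const.prodMk (hvcC.prodMk continuousOn_const))
  refine ⟨?_, hcf Gm hL.hG, ?_, fun q s => fderiv ℂ Gm (pt s q (S.V Y q s) (w (q : ℂ) s))
    (0, 1, (vq q s : ℂ), dz w (q : ℂ) s), ?_, ?_⟩
  · -- bounds
    intro q s hs
    obtain ⟨h1, h2⟩ := hTw.pos q s hs
    have hvr := hvR q s hs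
    have hwr := hTw.reg q s hs
    obtain ⟨g1, g2⟩ := bound_G hL hS hk1 hG hs hvr hwr h1 (by linarith) (by linarith)
    have g3 := bound_G2 hL hS hA hJ hG hRR hs hvr hwr h1 (by linarith) (vq q s)
    have hB1 := hB q s hs
    refine ⟨hApos q s hs, g1, g2.trans ?_, g3.trans ?_⟩
    · have : 0 ≤ (2 * C + 2 * C ^ 2) * (1 + B) := by positivity
      nlinarith
    · have e1 : (2 * C + 2 * C ^ 2) * (1 + |vq q s|) ≤ (2 * C + 2 * C ^ 2) * (1 + B) := by gcongr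
      nlinarith
  · -- continuity of the second function
    simp only [G2]
    exact ((hvcC.add ((hcf' Gm hL.hG).clm_apply hu)).sub ((hcf' J hL.hJ).clm_apply hu)).sub
      ((hcf RR hL.hR).mul ((hcf' A hL.hA).clm_apply hu))
  · -- continuity of the derivative
    exact (hcf' Gm hL.hG).clm_apply
      (continuousOn_const.prodMk (continuousOn_const.prodMk (hvcC.prodMk hdzc)))
  · intro q s hs
    have hwd : HasDerivAt (fun z => w z s) (dz w (q : ℂ) s) (q : ℂ) :=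
      (diffAt hTw.sh (hstr q) hs).hasDerivAt
    have hmv := hvd q s hs
    have hmq := hmem q s hs
    refine ⟨chainF hL.opn hL.hG hmv hwd hmq, ?_⟩
    -- the momentum along the leaf
    obtain ⟨a, b, ha, hbb, hab⟩ := leaf_deriv hS hR hs hY hmv
    set ζ : C4 := pt s q (S.V Y q s) (w (q : ℂ) s) with hζ
    set mm : ℂ := ((vq q s : ℝ) : ℂ) with hmm
    set wq : ℂ := dz w (q : ℂ) s with hwq
    set U : C4 := (0, 1, mm, wq) with hU
    set u : C4 := (0, 1, mm, 0) with hu'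
    have hAU : HasDerivAt (fun q' : ℝ => A (pt s q' (S.V Y q' s) (w (q' : ℂ) s)))
        (fderiv ℂ A ζ U) q := chainF hL.opn hL.hA hmv hwd hmq
    have hJU : HasDerivAt (fun q' : ℝ => J (pt s q' (S.V Y q' s) (w (q' : ℂ) s)))
        (fderiv ℂ J ζ U) q := chainF hL.opn hL.hJ hmv hwd hmq
    have hPz : HasDerivAt (fun q' : ℝ => S.p s (q' : ℂ) (w (q' : ℂ) s))
        (dz (fun z t => S.p t z (w z t)) (q : ℂ) s) q :=
      ((diffAt hshP (hstr q) hs).hasDerivAt).comp_ofReal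
    have hQz : HasDerivAt (fun q' : ℝ => S.En s (q' : ℂ) (w (q' : ℂ) s))
        (dz (fun z t => S.En t z (w z t)) (q : ℂ) s) q :=
      ((diffAt hshQ (hstr q) hs).hasDerivAt).comp_ofReal
    have i1 : fderiv ℂ A ζ U = dz (fun z t => S.p t z (w z t)) (q : ℂ) s - a := by
      have h1 := hPz.sub ha
      have h2 : (fun q' : ℝ => A (pt s q' (S.V Y q' s) (w (q' : ℂ) s))) =
          (fun q' : ℝ => S.p s (q' : ℂ) (w (q' : ℂ) s)) -
            fun q' : ℝ => S.p s (q' : ℂ) (S.V Y q' s : ℂ) := by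
        funext q'
        exact hAeq q' s hs
      rw [← h2] at h1
      exact hAU.unique h1
    have i2 : fderiv ℂ J ζ U * A ζ + J ζ * fderiv ℂ A ζ U =
        dz (fun z t => S.En t z (w z t)) (q : ℂ) s - b := by
      have h1 := hQz.sub hbb
      have h2 : (fun q' : ℝ => J (pt s q' (S.V Y q' s) (w (q' : ℂ) s))) *
          (fun q' : ℝ => A (pt s q' (S.V Y q' s) (w (q' : ℂ) s))) =
          (fun q' : ℝ => S.En s (q' : ℂ) (w (q' : ℂ) s)) -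
            fun q' : ℝ => S.En s (q' : ℂ) (S.V Y q' s : ℂ) := by
        funext q'
        exact hJeq q' s hs
      rw [← h2] at h1
      exact (hJU.mul hAU).unique h1
    -- derivative of the difference of momenta along the world line
    have hline := line_deriv hshP (q := q) hTw.hρ hs (hPt (q : ℂ) (hstr q) s hs) (S.V Y q s)
    have hpi := hline.sub hab.hasDerivWithinAt
    have e0 : S.p s ((q + (s - s) * S.V Y q s : ℝ) : ℂ)
        (w ((q + (s - s) * S.V Y q s : ℝ) : ℂ) s) -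
        S.p s ((q + (s - s) * S.V Y q s : ℝ) : ℂ) (S.V Y q s : ℂ) = A ζ := by
      simp only [sub_self, zero_mul, add_zero]
      exact (hAeq q s hs).symm
    have hslit : S.p s ((q + (s - s) * S.V Y q s : ℝ) : ℂ)
        (w ((q + (s - s) * S.V Y q s : ℝ) : ℂ) s) -
        S.p s ((q + (s - s) * S.V Y q s : ℝ) : ℂ) (S.V Y q s : ℂ) ∈ slitPlane := by
      rw [e0, hζ, hAeq q s hs]
      right
      exact (hApos q s hs).ne'
    have hA0 : A ζ ≠ 0 := by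
      intro h0
      have h1 := hApos q s hs
      rw [← hAeq q s hs, ← hζ, h0] at h1
      simp at h1
    have hlog := hpi.clog_real hslit
    refine hlog.congr_deriv ?_
    simp only [Pi.sub_apply]
    rw [e0, hmv.deriv]
    -- algebra
    have hwv : w (q : ℂ) s ≠ ((S.V Y q s : ℝ) : ℂ) := by
      intro h0
      have h1 := (hTw.pos q s hs).1
      rw [h0] at h1
      simp at h1
    have hkey := hL.key (s : ℂ) (q : ℂ) ((S.V Y q s : ℝ) : ℂ) (w (q : ℂ) s) hmq hwv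
    have hRA := hL.eqR (s : ℂ) (q : ℂ) ((S.V Y q s : ℝ) : ℂ) (w (q : ℂ) s) hmq
    change fderiv ℂ J ζ (0, 0, 0, 1) + RR ζ * fderiv ℂ A ζ (0, 0, 0, 1) =
      fderiv ℂ Gm ζ (0, 0, 0, 1) at hkey
    change J ζ - ((S.V Y q s : ℝ) : ℂ) = RR ζ * A ζ at hRA
    simp only [G2]
    rw [← hζ, ← hmm, ← hu', ← hU]
    have j1 : fderiv ℂ A ζ U = fderiv ℂ A ζ u + wq * fderiv ℂ A ζ (0, 0, 0, 1) :=
      C4_decomp _ _ _ _ _
    have j2 : fderiv ℂ J ζ U = fderiv ℂ J ζ u + wq * fderiv ℂ J ζ (0, 0, 0, 1) :=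
      C4_decomp _ _ _ _ _
    have j3 : fderiv ℂ Gm ζ U = fderiv ℂ Gm ζ u + wq * fderiv ℂ Gm ζ (0, 0, 0, 1) :=
      C4_decomp _ _ _ _ _
    rw [div_eq_iff hA0]
    have k2 : J ζ = ((S.V Y q s : ℝ) : ℂ) + RR ζ * A ζ := by rw [← hRA]; ring
    have k3 : dz (fun z t => S.En t z (w z t)) (q : ℂ) s =
        fderiv ℂ J ζ U * A ζ + J ζ * fderiv ℂ A ζ U + b := by rw [i2]; ring
    have k4 : dz (fun z t => S.p t z (w z t)) (q : ℂ) s = fderiv ℂ A ζ U + a := by rw [i1]; ring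
    rw [k3, k4, j3, ← hkey, k2, j1, j2]
    ring

end Pool.Agent.Helper10.FT
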